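import Mathlib

/-! Sorting inside consecutive blocks of natural numbers. -/

set_option autoImplicit false

namespace Pool.Agent.Lib.MP_843e59_an

open Finset

theorem exists_block_sort (N : ℕ → ℕ) (hN : StrictMono N) (h0 : N 0 = 0) (v : ℕ → ℕ → ℝ) :
    ∃ π : Equiv.Perm ℕ, (∀ k a, π a < N k ↔ a < N k) ∧
      ∀ k a b, N k ≤ a → a ≤ b → b < N (k + 1) → v k (π b) ≤ v k (π a) := by
  classical
  have hex : ∀ i, ∃ k, i < N (k + 1) := fun i =>
    ⟨i, lt_of_lt_of_le (Nat.lt_succ_self i) (hN.id_le (i + 1))⟩
  let blk : ℕ → ℕ := fun i => Nat.find (hex i)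
  have hb1 : ∀ i, i < N (blk i + 1) := fun i => Nat.find_spec (hex i)
  have hb2 : ∀ i k, blk i < k ↔ i < N k := by
    intro i k
    constructor
    · intro h
      exact lt_of_lt_of_le (hb1 i) (hN.monotone h)
    · intro h
      cases k with
      | zero => rw [h0] at h; omega
      | succ k => exact Nat.lt_succ_of_le (Nat.find_min' (hex i) h)
  have hb3 : ∀ i, N (blk i) ≤ i := fun i => not_lt.1 (fun h => lt_irrefl _ ((hb2 i _).2 h))
  let key : ℕ → ℕ ×ₗ (ℝ ×ₗ ℕ) := fun i => toLex (blk i, toLex (-v (blk i) i, i))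
  have hkey : Function.Injective key := by
    intro i j h
    have h1 := congrArg (fun p => (ofLex (ofLex p).2).2) h
    simpa [key] using h1
  have hkb : ∀ i j, key j < key i → blk j ≤ blk i := by
    intro i j h
    rcases Prod.Lex.toLex_lt_toLex.1 h with h | h
    · exact le_of_lt h
    · exact le_of_eq h.1
  have hkb' : ∀ i j, blk j < blk i → key j < key i := fun i j h =>
    Prod.Lex.toLex_lt_toLex.2 (Or.inl h)
  let P : ℕ → Finset ℕ := fun i => (range (N (blk i + 1))).filter (fun j => key j < key i)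
  have hP : ∀ i j, j ∈ P i ↔ key j < key i := by
    intro i j
    simp only [P, mem_filter, mem_range, and_iff_right_iff_imp]
    intro h
    exact (hb2 j _).1 (Nat.lt_succ_of_le (hkb i j h))
  let rank : ℕ → ℕ := fun i => (P i).card
  have hmono : ∀ i j, key j < key i → rank j < rank i := by
    intro i j h
    apply card_lt_card
    refine ⟨fun a ha => (hP i a).2 (((hP j a).1 ha).trans h), fun hsub => ?_⟩
    exact lt_irrefl _ ((hP j j).1 (hsub ((hP i j).2 h)))
  have hinj : Function.Injective rank := by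
    intro i j h
    rcases lt_trichotomy (key i) (key j) with h1 | h1 | h1
    · exact absurd h (hmono j i h1).ne
    · exact hkey h1
    · exact absurd h (hmono i j h1).ne'
  have hlow : ∀ i, N (blk i) ≤ rank i := by
    intro i
    rw [← card_range (N (blk i))]
    apply card_le_card
    intro j hj
    exact (hP i j).2 (hkb' i j ((hb2 j _).2 (mem_range.1 hj)))
  have hup : ∀ i, rank i < N (blk i + 1) := by
    intro i
    conv_rhs => rw [← card_range (N (blk i + 1))]
    apply card_lt_card
    refine ⟨filter_subset _ _, fun hsub => ?_⟩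
    exact lt_irrefl _ ((hP i i).1 (hsub (mem_range.2 (hb1 i))))
  have hiff : ∀ k i, rank i < N k ↔ i < N k := by
    intro k i
    rw [← hb2 i k]
    constructor
    · intro h
      exact hN.lt_iff_lt.1 (lt_of_le_of_lt (hlow i) h)
    · intro h
      exact lt_of_lt_of_le (hup i) (hN.monotone h)
  have hsurj : Function.Surjective rank := by
    intro a
    obtain ⟨k, hk⟩ := hex a
    have himg : (range (N (k + 1))).image rank = range (N (k + 1)) := by
      apply eq_of_subset_of_card_le
      · intro b hb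
        obtain ⟨i, hi, rfl⟩ := mem_image.1 hb
        exact mem_range.2 ((hiff _ _).2 (mem_range.1 hi))
      · rw [card_image_of_injective _ hinj]
    have : a ∈ (range (N (k + 1))).image rank := by rw [himg]; exact mem_range.2 hk
    obtain ⟨i, -, hi⟩ := mem_image.1 this
    exact ⟨i, hi⟩
  let ρ : Equiv.Perm ℕ := Equiv.ofBijective rank ⟨hinj, hsurj⟩
  have hρ : ∀ a, rank (ρ.symm a) = a := fun a => ρ.apply_symm_apply a
  have hπ : ∀ k a, ρ.symm a < N k ↔ a < N k := by
    intro k a
    rw [← hiff k (ρ.symm a), hρ]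
  refine ⟨ρ.symm, hπ, ?_⟩
  intro k a b ha hab hb
  have blk_eq : ∀ c, N k ≤ c → c < N (k + 1) → blk (ρ.symm c) = k := by
    intro c h1 h2
    have u1 : blk (ρ.symm c) < k + 1 := (hb2 _ _).2 ((hπ _ _).2 h2)
    have u2 : ¬ blk (ρ.symm c) < k := fun h => not_lt.2 h1 ((hπ _ _).1 ((hb2 _ _).1 h))
    omega
  have ea := blk_eq a ha (by omega)
  have eb := blk_eq b (by omega) hb
  by_contra hlt
  push Not at hlt
  have : key (ρ.symm b) < key (ρ.symm a) := by
    apply Prod.Lex.toLex_lt_toLex.2
    right
    refine ⟨by simp [ea, eb], ?_⟩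
    apply Prod.Lex.toLex_lt_toLex.2
    left
    simp only [ea, eb]
    linarith
  have := hmono _ _ this
  rw [hρ, hρ] at this
  omega

/-- Variation of a sequence that is `1`, then antitone and bounded, then `0`. -/
theorem variation_le (ν : ℕ → ℝ) (a b : ℕ) (hab : a ≤ b) (M : ℝ) (hM : 1 ≤ M)
    (h1 : ∀ m, m < a → ν m = 1) (h2 : ∀ m, b ≤ m → ν m = 0)
    (h3 : ∀ m, a ≤ m → m < b → |ν m| ≤ M)
    (h4 : ∀ m, a ≤ m → m + 1 < b → ν (m + 1) ≤ ν m) (n : ℕ) :
    ∑ m ∈ range n, |ν m - ν (m + 1)| ≤ 4 * M := by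
  let α : ℕ → ℝ := fun m => if m < a then M else if m < b then ν m else -M
  let β : ℕ → ℝ := fun m => if m < a then 1 - M else if m < b then 0 else M
  have hsum : ∀ m, ν m = α m + β m := by
    intro m
    simp only [α, β]
    split_ifs with c1 c2
    · rw [h1 m c1]; ring
    · ring
    · rw [h2 m (not_lt.1 c2)]; ring
  have hαb : ∀ m, |α m| ≤ M := by
    intro m
    simp only [α]
    split_ifs with c1 c2
    · rw [abs_of_nonneg (by linarith)]
    · exact h3 m (not_lt.1 c1) c2
    · rw [abs_neg, abs_of_nonneg (by linarith)]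
  have hβb : ∀ m, |β m| ≤ M := by
    intro m
    simp only [β]
    split_ifs with c1 c2
    · rw [abs_le]; constructor <;> linarith
    · rw [abs_zero]; linarith
    · rw [abs_of_nonneg (by linarith)]
  have hα : ∀ m, α (m + 1) ≤ α m := by
    intro m
    have b1 := abs_le.1 (hαb m)
    have b2 := abs_le.1 (hαb (m + 1))
    by_cases c1 : m < a
    · have : α m = M := by simp [α, c1]
      linarith [b2.2]
    by_cases c2 : m + 1 < b
    · have c3 : ¬ m + 1 < a := by omega
      have c4 : m < b := by omega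
      simp only [α, c1, c2, c3, c4, if_true, if_false]
      exact h4 m (not_lt.1 c1) c2
    · have c3 : ¬ m + 1 < a := by omega
      have : α (m + 1) = -M := by simp [α, c2, c3]
      linarith [b1.1]
  have hβ : ∀ m, β m ≤ β (m + 1) := by
    intro m
    simp only [β]
    split_ifs <;> first | omega | linarith
  calc ∑ m ∈ range n, |ν m - ν (m + 1)|
      ≤ ∑ m ∈ range n, ((α m - α (m + 1)) + (β (m + 1) - β m)) := by
        apply sum_le_sum
        intro m _
        rw [hsum m, hsum (m + 1), abs_le]
        constructor <;> linarith [hα m, hβ m]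
    _ = (α 0 - α n) + (β n - β 0) := by
        rw [sum_add_distrib, sum_range_sub', sum_range_sub]
    _ ≤ 4 * M := by
        linarith [abs_le.1 (hαb 0), abs_le.1 (hαb n), abs_le.1 (hβb 0), abs_le.1 (hβb n)]

end Pool.Agent.Lib.MP_843e59_an
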