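import Mathlib
import Pool.Agent.Lib.MP_843e59_an.Sort

/-! A rearrangement of a series summable system with a real matrix is a triangular T-basis. -/

set_option autoImplicit false

namespace Pool.Agent.Lib.MP_843e59_an

open Finset Filter Topology

lemma abel_sum {𝕜 E : Type*} [RCLike 𝕜] [AddCommGroup E] [Module 𝕜 E] (ν : ℕ → 𝕜) (z : ℕ → E)
    (n : ℕ) :
    ∑ m ∈ range n, (ν m - ν (m + 1)) • ∑ i ∈ range (m + 1), z i
      = ∑ i ∈ range n, ν i • z i - ν n • ∑ i ∈ range n, z i := by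
  induction n with
  | zero => simp
  | succ n ih =>
    rw [sum_range_succ, ih, sum_range_succ (fun i => ν i • z i), sum_range_succ z]
    simp only [sub_smul, smul_add]
    abel

theorem main (𝕜 : Type*) [RCLike 𝕜] (E : Type*) [NormedAddCommGroup E] [NormedSpace 𝕜 E]
    [CompleteSpace E] (x : ℕ → E) (f : ℕ → E →L[𝕜] 𝕜)
    (hbi : ∀ i j : ℕ, f i (x j) = if i = j then (1 : 𝕜) else 0) (l : ℕ → ℕ → ℝ)
    (hl : ∀ y : E, Tendsto (fun n : ℕ => ∑ i ∈ range (n + 1), (l n i : 𝕜) • f i y • x i)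
      atTop (𝓝 y)) :
    ∃ (π : Equiv.Perm ℕ) (t : ℕ → ℕ → ℝ),
      (∀ n m : ℕ, n < m → t n m = 0) ∧
      (∃ C : ℝ, ∀ n : ℕ, ∑ m ∈ range (n + 1), |t n m| ≤ C) ∧
      (∀ m : ℕ, Tendsto (fun n : ℕ => t n m) atTop (𝓝 0)) ∧
      Tendsto (fun n : ℕ => ∑ m ∈ range (n + 1), t n m) atTop (𝓝 1) ∧
      ∀ y : E, Tendsto (fun n : ℕ => ∑ m ∈ range (n + 1),
          (t n m : 𝕜) • ∑ i ∈ range (m + 1), f (π i) y • x (π i)) atTop (𝓝 y) := by
  classical
  have hx0 : ∀ i, x i ≠ 0 := by
    intro i h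
    have := hbi i i
    rw [h] at this
    simp at this
  let T : ℕ → E →L[𝕜] E := fun n => ∑ i ∈ range (n + 1), (l n i : 𝕜) • (f i).smulRight (x i)
  have hT : ∀ n y, T n y = ∑ i ∈ range (n + 1), (l n i : 𝕜) • f i y • x i := by
    intro n y
    simp [T]
  have hTx : ∀ n i, i ≤ n → T n (x i) = (l n i : 𝕜) • x i := by
    intro n i hi
    rw [hT, sum_eq_single i]
    · simp [hbi]
    · intro j _ hj
      simp [hbi, hj]
    · intro h
      exact absurd (mem_range.2 (Nat.lt_succ_of_le hi)) h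
  obtain ⟨M0, hM0⟩ : ∃ C, ∀ n, ‖T n‖ ≤ C := by
    apply banach_steinhaus
    intro y
    have h1 : Tendsto (fun n => T n y) atTop (𝓝 y) := by simpa only [hT] using hl y
    obtain ⟨C, hC⟩ := (h1.norm.bddAbove_range)
    exact ⟨C, fun n => hC ⟨n, rfl⟩⟩
  have hlM : ∀ n i, i ≤ n → |l n i| ≤ M0 := by
    intro n i hi
    have h1 := (T n).le_opNorm (x i)
    rw [hTx n i hi, norm_smul, RCLike.norm_ofReal] at h1
    have h2 : 0 < ‖x i‖ := norm_pos_iff.2 (hx0 i)
    exact (le_of_mul_le_mul_right h1 h2).trans (hM0 n)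
  have hl1 : ∀ i, Tendsto (fun n => l n i) atTop (𝓝 1) := by
    intro i
    have h1 : Tendsto (fun n => T n (x i)) atTop (𝓝 (x i)) := by simpa only [hT] using hl (x i)
    have h2 := ((f i).continuous.tendsto _).comp h1
    have h3 : Tendsto (fun n => ((l n i : ℝ) : 𝕜)) atTop (𝓝 1) := by
      have e : f i (x i) = 1 := by simp [hbi]
      rw [e] at h2
      refine h2.congr' ?_
      filter_upwards [eventually_ge_atTop i] with n hn
      simp [hTx n i hn, hbi]
    have h4 := (RCLike.continuous_re.tendsto _).comp h3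
    simpa [Function.comp_def] using h4
  -- the blocks
  have hstep : ∀ a k : ℕ, ∃ b, a ≤ b ∧
      ∑ i ∈ range a, |1 - l b i| * (‖f i‖ * ‖x i‖) ≤ 1 / ((k : ℝ) + 1) := by
    intro a k
    have h1 : Tendsto (fun b => ∑ i ∈ range a, |1 - l b i| * (‖f i‖ * ‖x i‖)) atTop
        (𝓝 (∑ i ∈ range a, |1 - (1 : ℝ)| * (‖f i‖ * ‖x i‖))) :=
      tendsto_finsetSum _ fun i _ => ((tendsto_const_nhds.sub (hl1 i)).abs).mul_const _
    simp only [sub_self, abs_zero, zero_mul, sum_const_zero] at h1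
    have h2 := h1.eventually (ge_mem_nhds (show (0 : ℝ) < 1 / ((k : ℝ) + 1) by positivity))
    obtain ⟨b, hb1, hb2⟩ := (h2.and (eventually_ge_atTop a)).exists
    exact ⟨b, hb2, hb1⟩
  choose g hg1 hg2 using hstep
  obtain ⟨N, hN0, hNs⟩ : ∃ N : ℕ → ℕ, N 0 = 0 ∧ ∀ k, N (k + 1) = g (N k) k + 1 :=
    ⟨fun k => Nat.rec 0 (fun k a => g a k + 1) k, rfl, fun _ => rfl⟩
  have hN : StrictMono N := strictMono_nat_of_lt_succ fun k => by
    rw [hNs]; exact Nat.lt_succ_of_le (hg1 _ _)
  let r : ℕ → ℕ := fun k => g (N k) k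
  have hr : ∀ k, N (k + 1) = r k + 1 := hNs
  obtain ⟨π, hπ1, hπ2⟩ := exists_block_sort N hN hN0 (fun k i => l (r k) i)
  let μ : ℕ → ℕ → ℝ := fun k i => if i < N k then 1 else if i < N (k + 1) then l (r k) i else 0
  let ν : ℕ → ℕ → ℝ := fun k a => μ k (π a)
  have hν1 : ∀ k m, m < N k → ν k m = 1 := by
    intro k m h
    simp [ν, μ, (hπ1 k m).2 h]
  have hν2 : ∀ k m, N (k + 1) ≤ m → ν k m = 0 := by
    intro k m h
    have h1 : ¬ π m < N (k + 1) := fun h' => not_lt.2 h ((hπ1 _ _).1 h')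
    have h2 : ¬ π m < N k := fun h' => h1 (h'.trans (hN (Nat.lt_succ_self k)))
    simp [ν, μ, h1, h2]
  have hν3 : ∀ k m, N k ≤ m → m < N (k + 1) → ν k m = l (r k) (π m) := by
    intro k m h h'
    have h1 : π m < N (k + 1) := (hπ1 _ _).2 h'
    have h2 : ¬ π m < N k := fun h'' => not_lt.2 h ((hπ1 _ _).1 h'')
    simp [ν, μ, h1, h2]
  have hvar : ∀ k n, ∑ m ∈ range n, |ν k m - ν k (m + 1)| ≤ 4 * max M0 1 := by
    intro k n
    refine variation_le (ν k) (N k) (N (k + 1)) (hN (Nat.lt_succ_self k)).le _ (le_max_right _ _)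
      (hν1 k) (hν2 k) ?_ ?_ n
    · intro m h h'
      rw [hν3 k m h h']
      refine (hlM _ _ ?_).trans (le_max_left _ _)
      have := (hπ1 (k + 1) m).2 h'
      rw [hr] at this
      omega
    · intro m h h'
      rw [hν3 k m h (by omega), hν3 k (m + 1) (by omega) h']
      exact hπ2 k m (m + 1) h (by omega) h'
  -- the modified rows converge
  have hS : ∀ y : E, Tendsto (fun k => ∑ i ∈ range (N (k + 1)), (μ k i : 𝕜) • f i y • x i)
      atTop (𝓝 y) := by
    intro y
    have hrt : Tendsto r atTop atTop := by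
      apply tendsto_atTop_mono (fun k => (hN.id_le k).trans (hg1 (N k) k)) tendsto_id
    have h1 : Tendsto (fun k => T (r k) y) atTop (𝓝 y) := by
      have : Tendsto (fun n => T n y) atTop (𝓝 y) := by simpa only [hT] using hl y
      exact this.comp hrt
    have h2 : Tendsto (fun k => ∑ i ∈ range (N (k + 1)), (μ k i : 𝕜) • f i y • x i - T (r k) y)
        atTop (𝓝 0) := by
      have hb : Tendsto (fun k : ℕ => 1 / ((k : ℝ) + 1) * ‖y‖) atTop (𝓝 0) := by
        simpa using tendsto_one_div_add_atTop_nhds_zero_nat.mul_const ‖y‖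
      refine squeeze_zero_norm (fun k => ?_) hb
      rw [hT, ← hr, ← sum_sub_distrib]
      have hsub : range (N k) ⊆ range (N (k + 1)) :=
        range_mono (hN (Nat.lt_succ_self k)).le
      rw [← sum_subset hsub]
      · refine (norm_sum_le _ _).trans ?_
        refine le_trans ?_ (mul_le_mul_of_nonneg_right (hg2 (N k) k) (norm_nonneg y))
        rw [sum_mul]
        apply sum_le_sum
        intro i hi
        have : μ k i = 1 := by simp [μ, mem_range.1 hi]
        rw [this, ← sub_smul, norm_smul, norm_smul, ← RCLike.ofReal_sub, RCLike.norm_ofReal]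
        have h3 := (f i).le_opNorm y
        calc |1 - l (r k) i| * (‖f i y‖ * ‖x i‖)
            ≤ |1 - l (r k) i| * (‖f i‖ * ‖y‖ * ‖x i‖) := by gcongr
          _ = |1 - l (g (N k) k) i| * (‖f i‖ * ‖x i‖) * ‖y‖ := by simp only [r]; ring
      · intro i hi hi'
        have : μ k i = l (r k) i := by
          have h4 : ¬ i < N k := fun h => hi' (mem_range.2 h)
          simp [μ, h4, mem_range.1 hi]
        rw [this, sub_self]
    simpa using h2.add h1
  -- the index of the row used at stage `n`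
  let κ : ℕ → ℕ := fun n => Nat.findGreatest (fun k => N (k + 1) ≤ n + 1) n
  have hκ1 : ∀ k n, N (k + 1) ≤ n + 1 → k ≤ κ n ∧ N (κ n + 1) ≤ n + 1 := by
    intro k n h
    have hk : k ≤ n := by
      have := hN.id_le (k + 1)
      simp only [id] at this
      omega
    exact ⟨Nat.le_findGreatest hk h,
      Nat.findGreatest_spec (P := fun k => N (k + 1) ≤ n + 1) hk h⟩
  have hκ : Tendsto κ atTop atTop := by
    rw [tendsto_atTop]
    intro k
    filter_upwards [eventually_ge_atTop (N (k + 1))] with n hn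
    exact (hκ1 k n (by omega)).1
  have hev : ∀ᶠ n in atTop, N (κ n + 1) ≤ n + 1 := by
    filter_upwards [eventually_ge_atTop (N 1)] with n hn
    exact (hκ1 0 n (by simpa using by omega)).2
  let t : ℕ → ℕ → ℝ := fun n m =>
    if N (κ n + 1) ≤ n + 1 then ν (κ n) m - ν (κ n) (m + 1) else 0
  refine ⟨π, t, ?_, ⟨4 * max M0 1, ?_⟩, ?_, ?_, ?_⟩
  · intro n m h
    simp only [t]
    split_ifs with h1
    · rw [hν2 _ _ (by omega), hν2 _ _ (by omega), sub_self]
    · rfl
  · intro n
    simp only [t]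
    split_ifs with h1
    · exact hvar _ _
    · simp
  · intro m
    refine tendsto_const_nhds.congr' ?_
    filter_upwards [hκ.eventually (eventually_ge_atTop (m + 2))] with n hn
    have h1 : m + 1 < N (κ n) := lt_of_lt_of_le (show m + 1 < κ n by omega) (hN.id_le (κ n))
    simp only [t]
    split_ifs
    · rw [hν1 _ _ (by omega), hν1 _ _ h1, sub_self]
    · rfl
  · refine tendsto_const_nhds.congr' ?_
    filter_upwards [hκ.eventually (eventually_ge_atTop 1), hev] with n hn hn'
    simp only [t, hn', if_true]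
    have h1 : 0 < N (κ n) := lt_of_lt_of_le (show 0 < κ n by omega) (hN.id_le (κ n))
    rw [sum_range_sub', hν1 _ _ h1, hν2 _ _ hn', sub_zero]
  · intro y
    refine ((hS y).comp hκ).congr' ?_
    filter_upwards [hev] with n hn
    simp only [t, hn, if_true, Function.comp, RCLike.ofReal_sub]
    rw [abel_sum (fun m => ((ν (κ n) m : ℝ) : 𝕜)), hν2 _ _ hn]
    simp only [RCLike.ofReal_zero, zero_smul, sub_zero]
    have hsub : range (N (κ n + 1)) ⊆ range (n + 1) := range_mono hn
    rw [← sum_subset hsub]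
    · symm
      apply sum_equiv π
      · intro i
        simp only [mem_range]
        exact (hπ1 _ _).symm
      · intro i _
        rfl
    · intro i _ hi
      rw [hν2 _ _ (not_lt.1 (fun h => hi (mem_range.2 h)))]
      simp

end Pool.Agent.Lib.MP_843e59_an
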