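import Pool.Agent.Lib.MP_843e59_an.Step
import Pool.Agent.Lib.MP_843e59_an.Main

/-! A new series summable system with a real matrix. -/

set_option autoImplicit false

namespace Pool.Agent.Lib.MP_843e59_an

open Finset Filter Topology

variable {E : Type} [NormedAddCommGroup E] [NormedSpace ℂ E] {x : ℕ → E} {f : ℕ → E →L[ℂ] ℂ}

theorem real_system [CompleteSpace E] (h : Bi x f) {l : ℕ → ℕ → ℂ} {C : ℝ}
    (hT : ∀ u, Tendsto (fun n => mu x f (range (n + 1)) (l n) u) atTop (𝓝 u)) (hC : Cpl E C) :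
    ∃ (y : ℕ → E) (g : ℕ → E →L[ℂ] ℂ) (m : ℕ → ℕ → ℝ), Bi y g ∧
      ∀ u, Tendsto (fun n => mu y g (range (n + 1)) (fun i => m n i) u) atTop (𝓝 u) := by
  classical
  obtain ⟨M, hM⟩ : ∃ M, ∀ n, ‖mu x f (range (n + 1)) (l n)‖ ≤ M := banach_steinhaus fun u => by
    obtain ⟨c, hc⟩ := (hT u).norm.bddAbove_range
    exact ⟨c, fun n => hc ⟨n, rfl⟩⟩
  obtain ⟨K, hK⟩ := step h hT hM hC
  choose b hb Y G μ h1 h2 h3 h4 using hK
  obtain ⟨N, hN0, hNs⟩ : ∃ N : ℕ → ℕ, N 0 = 0 ∧ ∀ k, N (k + 1) = b (N k) :=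
    ⟨fun k => Nat.rec 0 (fun _ a => b a) k, rfl, fun _ => rfl⟩
  have hN : StrictMono N := strictMono_nat_of_lt_succ fun k => hNs k ▸ hb _
  have hex : ∀ i, ∃ k, i ∈ Ico (N k) (N (k + 1)) := fun i => by
    have h0 : ∃ k, i < N (k + 1) := ⟨i, i.lt_succ_self.trans_le (hN.id_le (i + 1))⟩
    refine ⟨Nat.find h0, mem_Ico.2 ⟨?_, Nat.find_spec h0⟩⟩
    rcases e : Nat.find h0 with _ | k
    · exact hN0.trans_le (Nat.zero_le i)
    · exact not_lt.1 (Nat.find_min h0 (e ▸ k.lt_succ_self))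
  choose β hβ using hex
  have hd : ∀ k k', k ≠ k' → Ico (N k) (N (k + 1)) ∩ Ico (N k') (N (k' + 1)) = ∅ := fun k k' e => by
    rw [Ico_inter_Ico, Ico_eq_empty_iff, not_lt]
    rcases lt_or_gt_of_ne e with e | e
    · exact (min_le_left _ _).trans ((hN.monotone e).trans (le_max_right _ _))
    · exact (min_le_right _ _).trans ((hN.monotone e).trans (le_max_left _ _))
  have hβ' : ∀ k, ∀ i ∈ Ico (N k) (N (k + 1)), β i = k := fun k i hi => by
    by_contra e
    exact notMem_empty i (hd _ _ e ▸ mem_inter.2 ⟨hβ i, hi⟩)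
  let y : ℕ → E := fun i => Y (N (β i)) i
  let g : ℕ → E →L[ℂ] ℂ := fun i => G (N (β i)) i
  have hblk : ∀ k c, mu y g (Ico (N k) (N (k + 1))) c =
      mu (Y (N k)) (G (N k)) (Ico (N k) (b (N k))) c := fun k c => by
    rw [← hNs]
    exact sum_congr rfl fun i hi => by simp only [y, g, hβ' k i hi]
  have hP : ∀ k, mu y g (range (N k)) 1 = mu x f (range (N k)) 1 := fun k => by
    induction k with
    | zero => simp [mu, hN0]
    | succ k ih =>
      have e : ∀ (y : ℕ → E) (g : ℕ → E →L[ℂ] ℂ), mu y g (range (N (k + 1))) 1 =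
          mu y g (range (N k)) 1 + mu y g (Ico (N k) (N (k + 1))) 1 := fun y g =>
        (sum_range_add_sum_Ico _ (hN.monotone k.le_succ)).symm
      rw [e, e, ih, hblk, h3, hNs]
  let S : ℕ → E →L[ℂ] E := fun k => mu x f (range (N k)) 1 +
    mu (Y (N k)) (G (N k)) (Ico (N k) (b (N k))) fun i => μ (N k) i
  have hS : ∀ u, Tendsto (fun k => S k u) atTop (𝓝 u) := fun u => by
    have pK : 0 ≤ K := (norm_nonneg _).trans (h4 0)
    refine Metric.tendsto_atTop.2 fun ε hε => ?_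
    obtain ⟨n, hn⟩ := ((tendsto_iff_norm_sub_tendsto_zero.1 (hT u)).eventually
      (gt_mem_nhds (show 0 < ε / (K + 1) by positivity))).exists
    refine ⟨n + 1, fun k hk => ?_⟩
    have a0 : n + 1 ≤ N k := hk.trans (hN.id_le k)
    obtain ⟨w, hw⟩ : ∃ w, w = mu x f (range (n + 1)) (l n) u := ⟨_, rfl⟩
    have a1 : S k w = w := by
      have a2 : mu x f (Ico (N k) (b (N k))) 1 w = 0 := by
        rw [hw, h.mu_mu, range_eq_Ico, Ico_inter_Ico, Ico_eq_empty (by omega)]
        simp [mu]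
      have a3 : ∀ i, G (N k) i w = 0 := fun i => by rw [← (h2 _ i).2, a2, map_zero]
      simp only [S, add_apply]
      rw [mu_apply (Ico _ _)]
      simp only [a3, zero_smul, smul_zero, sum_const_zero, add_zero]
      rw [hw, h.mu_mu, inter_eq_right.2 (range_mono a0), one_mul]
    rw [← hw, lt_div_iff₀ (by positivity)] at hn
    have a4 := (S k).le_of_opNorm_le (h4 (N k)) (w - u)
    rw [map_sub, a1] at a4
    rw [dist_eq_norm]
    linarith [norm_sub_le_norm_sub_add_norm_sub (S k u) w u, norm_sub_rev (S k u) w]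
  let κ : ℕ → ℕ := fun n => β (n + 1) - 1
  refine ⟨y, g, fun n i => if i < N (κ n) then 1 else if i < N (κ n + 1) then μ (N (κ n)) i else 0,
    fun i j => ?_, fun u => ?_⟩
  · by_cases e : β i = β j
    · simp only [y, g, e]
      exact h1 _ i (hNs _ ▸ e ▸ hβ i) j (hNs _ ▸ hβ j)
    · rw [if_neg fun e' => e (congrArg β e')]
      simp only [y, g]
      rw [← (h2 _ i).2, ← (h2 _ j).1, h.mu_mu, ← hNs, ← hNs, hd _ _ e]
      simp [mu]
  · have a1 : ∀ k n, N k ≤ n → k ≤ β n := fun k n e =>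
      Nat.lt_succ_iff.1 (hN.lt_iff_lt.1 (e.trans_lt (mem_Ico.1 (hβ n)).2))
    have a2 : Tendsto κ atTop atTop := tendsto_atTop.2 fun k => by
      filter_upwards [eventually_ge_atTop (N (k + 1))] with n hn
      have := a1 (k + 1) (n + 1) (hn.trans n.le_succ)
      simp only [κ]
      omega
    refine ((hS u).comp a2).congr' ?_
    filter_upwards [eventually_ge_atTop (N 1)] with n hn
    have a3 : κ n + 1 = β (n + 1) := Nat.sub_add_cancel (a1 1 (n + 1) (hn.trans n.le_succ))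
    have a4 : N (κ n + 1) ≤ n + 1 := a3 ▸ (mem_Ico.1 (hβ (n + 1))).1
    simp only [Function.comp, S, ← hP, ← hblk, add_apply, mu_apply]
    rw [← sum_range_add_sum_Ico _ a4, ← sum_range_add_sum_Ico _ (hN.monotone (κ n).le_succ),
      sum_eq_zero (s := Ico (N (κ n + 1)) (n + 1)), add_zero]
    · congr 1
      · exact sum_congr rfl fun i hi => by simp [mem_range.1 hi]
      · exact sum_congr rfl fun i hi => by simp [(mem_Ico.1 hi).1.not_gt, (mem_Ico.1 hi).2]
    · intro i hi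
      have := (mem_Ico.1 hi).1
      simp [this.not_gt, ((hN.monotone (κ n).le_succ).trans this).not_gt]

end Pool.Agent.Lib.MP_843e59_an
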