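import Mathlib

/-! Weighted cycles with prescribed real spectrum, and norms in finite sequence spaces. -/

set_option autoImplicit false

namespace Pool.Agent.Lib.MP_843e59_an

open Finset Polynomial
open scoped ENNReal

section Alg

variable {V : Type*} [AddCommGroup V] [Module ℂ V]

/-- Eigenvectors with a real eigenvalue. -/
def REig (R : V →ₗ[ℂ] V) : Set V := {w | ∃ t : ℝ, R w = (t : ℂ) • w}

lemma eig_span (R : V →ₗ[ℂ] V) {s : Finset ℕ} (hs : s.Nonempty) {μ : ℕ → ℝ}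
    (hμ : Set.InjOn μ s) {u : V} (h : aeval R (Lagrange.nodal s fun l => (μ l : ℂ)) u = 0) :
    u ∈ Submodule.span ℂ (REig R) := by
  have h1 : Set.InjOn (fun l => (μ l : ℂ)) s := fun a ha b hb e =>
    hμ ha hb (Complex.ofReal_injective e)
  have h2 := congrArg (fun q => aeval R q u) (Lagrange.sum_basis h1 hs)
  simp only [map_sum, LinearMap.sum_apply, map_one, Module.End.one_apply] at h2
  rw [← h2]
  refine Submodule.sum_mem _ fun l hl => Submodule.subset_span ⟨μ l, ?_⟩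
  have h3 : (X - C (μ l : ℂ)) * Lagrange.basis s (fun l => (μ l : ℂ)) l =
      C (Lagrange.nodalWeight s (fun l => (μ l : ℂ)) l) * Lagrange.nodal s fun l => (μ l : ℂ) := by
    rw [Lagrange.basis_eq_prod_sub_inv_mul_nodal_div hl, ← Lagrange.nodal_erase_eq_nodal_div hl,
      Lagrange.nodal_eq_mul_nodal_erase hl]
    ring
  have h4 := congrArg (fun q => aeval R q u) h3
  simp only [map_mul, map_sub, aeval_X, aeval_C, Module.End.mul_apply, h, map_zero,
    LinearMap.sub_apply, Module.algebraMap_end_apply] at h4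
  exact sub_eq_zero.1 h4

lemma chain (R : V →ₗ[ℂ] V) (z : ℕ → V) (δ w : ℕ → ℂ) (m : ℕ)
    (h : ∀ j < m, R (z j) = δ j • z j + w j • z (j + 1)) :
    aeval R (∏ j ∈ range m, (X - C (δ j))) (z 0) = (∏ j ∈ range m, w j) • z m := by
  induction m with
  | zero => simp
  | succ m ih =>
    rw [prod_range_succ, mul_comm, map_mul, Module.End.mul_apply,
      ih fun j hj => h j (hj.trans m.lt_succ_self), map_smul, prod_range_succ, mul_smul]
    simp [h m m.lt_succ_self]

lemma cycle_ker (R : V →ₗ[ℂ] V) (z : ℕ → V) (δ w : ℕ → ℂ) (m : ℕ) (G : ℂ[X])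
    (h : ∀ j < m + 1, R (z j) = δ j • z j + w j • z (j + 1)) (hz : z (m + 1) = z 0)
    (hw : ∀ j < m, w j ≠ 0)
    (hG : G = ∏ j ∈ range (m + 1), (X - C (δ j)) - C (∏ j ∈ range (m + 1), w j)) :
    ∀ j ≤ m, aeval R G (z j) = 0 := by
  intro j
  induction j with
  | zero =>
    intro _
    rw [hG, map_sub, LinearMap.sub_apply, chain R z δ w _ h, hz, aeval_C,
      Module.algebraMap_end_apply, sub_self]
  | succ j ih =>
    intro hj
    have h1 := ih (by omega)
    have h2 : aeval R G (R (z j)) = R (aeval R G (z j)) := by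
      have := congrArg (fun q => aeval R q (z j)) (mul_comm G X)
      simpa using this
    rw [h1, map_zero, h j (by omega), map_add, map_smul, map_smul, h1, smul_zero, zero_add] at h2
    exact (smul_eq_zero.1 h2).resolve_left (hw j (by omega))

lemma exists_eigenbasis {n : ℕ} (R : (Fin n → ℂ) →ₗ[ℂ] (Fin n → ℂ))
    (h : ⊤ ≤ Submodule.span ℂ (REig R)) :
    ∃ (b : Module.Basis (Fin n) ℂ (Fin n → ℂ)) (μ : Fin n → ℝ), ∀ i, R (b i) = (μ i : ℂ) • b i := by
  let b := Module.Basis.ofSpan h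
  let b' := b.reindex (b.indexEquiv (Pi.basisFun ℂ (Fin n)))
  have h1 : ∀ i, b' i ∈ REig R := fun i => by
    rw [Module.Basis.reindex_apply]
    exact Module.Basis.ofSpan_subset h ⟨_, rfl⟩
  choose μ hμ using h1
  exact ⟨b', μ, hμ⟩

end Alg

/-- The polynomial with the nodes `1 / m, 2 / m, ..., 1`. -/
noncomputable def gp (m : ℕ) : ℂ[X] := ∏ l ∈ range m, (X - C (((l + 1 : ℕ) / m : ℝ) : ℂ))

lemma nodal_gp (m : ℕ) :
    Lagrange.nodal (range (m + 1)) (fun l => ((l / m : ℝ) : ℂ)) = gp m * X := by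
  rw [Lagrange.nodal_eq, prod_range_succ', gp]
  simp

lemma node_le {l m : ℕ} (h : l ∈ range m) : ‖((((l + 1 : ℕ) / m : ℝ)) : ℂ)‖ ≤ 1 := by
  have h1 : ((l + 1 : ℕ) : ℝ) ≤ m := by exact_mod_cast mem_range.1 h
  rw [Complex.norm_real, Real.norm_eq_abs, abs_of_nonneg (by positivity)]
  exact div_le_one_of_le₀ h1 (by positivity)

lemma norm_gp_le (m : ℕ) (z : ℂ) : ‖(gp m).eval z‖ ≤ (‖z‖ + 1) ^ m := by
  rw [gp, eval_prod, norm_prod]
  refine (prod_le_prod (fun _ _ => norm_nonneg _) fun l hl => ?_).trans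
    (by rw [prod_const, card_range])
  rw [eval_sub, eval_X, eval_C]
  exact (norm_sub_le _ _).trans (by linarith [node_le hl])

lemma le_norm_gp (m : ℕ) {z : ℂ} (hz : 1 ≤ ‖z‖) : (‖z‖ - 1) ^ m ≤ ‖(gp m).eval z‖ := by
  rw [gp, eval_prod, norm_prod]
  refine le_trans (by rw [prod_const, card_range])
    (prod_le_prod (f := fun _ => ‖z‖ - 1) (fun _ _ => by linarith) fun l hl => ?_)
  rw [eval_sub, eval_X, eval_C]
  linarith [norm_sub_norm_le z ((((l + 1 : ℕ) / m : ℝ)) : ℂ), node_le hl]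

lemma exists_diag (m : ℕ) (c : ℂ) : ∃ δ : ℕ → ℂ, δ 0 = c ∧ (∀ j < m + 1, ‖δ j‖ ≤ ‖c‖ + 2) ∧
    gp (m + 1) = ∏ j ∈ range (m + 1), (X - C (δ j)) - C (-(gp (m + 1)).eval c) := by
  have h1 : (gp (m + 1)).Monic := monic_prod_X_sub_C _ _
  have h2 : (gp (m + 1)).natDegree = m + 1 := by
    rw [gp, natDegree_finsetProd_X_sub_C_eq_card, card_range]
  have h3 : (gp (m + 1) - C ((gp (m + 1)).eval c)).Monic :=
    h1.sub_of_left (degree_C_le.trans_lt (natDegree_pos_iff_degree_pos.1 (by omega)))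
  have h4 := IsAlgClosed.splits (gp (m + 1) - C ((gp (m + 1)).eval c))
  have h5 := h4.eq_prod_roots_of_monic h3
  have h6 := h4.natDegree_eq_card_roots
  rw [natDegree_sub_C, h2] at h6
  have h7 : c ∈ (gp (m + 1) - C ((gp (m + 1)).eval c)).roots :=
    (mem_roots h3.ne_zero).2 (by simp)
  have h8 : ∀ d ∈ (gp (m + 1) - C ((gp (m + 1)).eval c)).roots, ‖d‖ ≤ ‖c‖ + 2 := fun d hd => by
    have e : (gp (m + 1)).eval d = (gp (m + 1)).eval c := by
      simpa [sub_eq_zero] using (mem_roots h3.ne_zero).1 hd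
    by_contra h
    have h9 := le_norm_gp (m + 1) (z := d) (by linarith [norm_nonneg c])
    rw [e] at h9
    have := lt_of_lt_of_le (pow_lt_pow_left₀ (show ‖c‖ + 1 < ‖d‖ - 1 by linarith)
      (by positivity) m.succ_ne_zero) (h9.trans (norm_gp_le _ c))
    exact lt_irrefl _ this
  generalize (gp (m + 1) - C ((gp (m + 1)).eval c)).roots = s at h5 h6 h7 h8
  obtain ⟨t, rfl⟩ := Multiset.exists_cons_of_mem h7
  induction t using Quotient.inductionOn with | _ L => ?_
  have hL : (c :: L).length = m + 1 := h6.symm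
  refine ⟨fun j => (c :: L).getD j 0, rfl, fun j hj => h8 _ ?_, ?_⟩
  · change (c :: L).getD j 0 ∈ c :: L
    rw [List.getD_eq_getElem _ _ (hL ▸ hj)]
    exact List.getElem_mem _
  · rw [map_neg, sub_neg_eq_add, ← sub_eq_iff_eq_add, h5, ← hL, prod_range,
      ← List.prod_ofFn]
    change ((c :: L).map _).prod = _
    congr 1
    refine List.ext_getElem (by simp) fun j h1 h2 => ?_
    rw [List.getElem_map, List.getElem_ofFn]
    beta_reduce
    rw [List.getD_eq_getElem]

section Lp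

variable {p : ℝ≥0∞} [Fact (1 ≤ p)] {ι κ : Type} [Fintype ι] [Fintype κ]

lemma lp_le {w : PiLp p fun _ : ι => ℂ} {v : PiLp p fun _ : κ => ℂ} (τ : ι → κ)
    (h1 : Set.InjOn τ {i | w i ≠ 0}) (h2 : ∀ i, w i ≠ 0 → ‖w i‖ ≤ ‖v (τ i)‖) : ‖w‖ ≤ ‖v‖ := by
  classical
  rcases p.dichotomy with rfl | hp
  · rw [PiLp.norm_eq_ciSup]
    refine Real.iSup_le (fun i => ?_) (norm_nonneg _)
    by_cases h : w i = 0
    · simp [h]
    · exact (h2 i h).trans (PiLp.norm_apply_le v _)
  · have hp' : 0 < p.toReal := by linarith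
    rw [PiLp.norm_eq_sum hp', PiLp.norm_eq_sum hp']
    refine Real.rpow_le_rpow (by positivity) ?_ (by positivity)
    rw [← sum_filter_add_sum_filter_not univ (fun i => w i ≠ 0),
      sum_eq_zero (s := filter (fun i => ¬w i ≠ 0) univ) fun i hi => by
        rw [not_not.1 (mem_filter.1 hi).2, norm_zero, Real.zero_rpow hp'.ne'], add_zero]
    refine (sum_le_sum fun i hi => Real.rpow_le_rpow (norm_nonneg _) (h2 i (mem_filter.1 hi).2)
      hp'.le).trans ?_
    rw [← sum_image (g := τ) (f := fun j => ‖v j‖ ^ p.toReal) (by simpa using h1)]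
    exact sum_le_sum_of_subset_of_nonneg (subset_univ _) fun _ _ _ => by positivity

omit [Fact (1 ≤ p)] in
lemma lp_eq_sum [DecidableEq ι] (v : PiLp p fun _ : ι => ℂ) :
    v = ∑ i, v i • PiLp.single p i (1 : ℂ) := by
  ext j
  simp [Pi.single_apply]

lemma lp_opNorm_le [DecidableEq ι] {F : Type*} [NormedAddCommGroup F] [NormedSpace ℂ F]
    (S : (PiLp p fun _ : ι => ℂ) →L[ℂ] F) : ‖S‖ ≤ ∑ i, ‖S (PiLp.single p i 1)‖ := by
  refine S.opNorm_le_bound (by positivity) fun v => ?_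
  conv_lhs => rw [lp_eq_sum v, map_sum]
  rw [sum_mul]
  refine (norm_sum_le _ _).trans (sum_le_sum fun i _ => ?_)
  rw [map_smul, norm_smul, mul_comm]
  exact mul_le_mul_of_nonneg_left (PiLp.norm_apply_le v i) (norm_nonneg _)

lemma lp_norm_le_sum (v : PiLp p fun _ : ι => ℂ) : ‖v‖ ≤ ∑ i, ‖v i‖ := by
  classical
  conv_lhs => rw [lp_eq_sum v]
  refine (norm_sum_le _ _).trans (sum_le_sum fun i _ => ?_)
  simp [norm_smul]

end Lp

end Pool.Agent.Lib.MP_843e59_an
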