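import Pool.Agent.Lib.MP_843e59_an.Cyc

/-! Complemented copies of finite sequence spaces which are supported far out. -/

set_option autoImplicit false

namespace Pool.Agent.Lib.MP_843e59_an

open Finset Filter Topology
open scoped ENNReal

/-- Finite sequence spaces. -/
abbrev Lp (p : ℝ≥0∞) (ι : Type) : Type := PiLp p fun _ : ι => ℂ

section Lp

variable {p : ℝ≥0∞} [Fact (1 ≤ p)] {ι ι' κ : Type} [Fintype ι] [Fintype ι'] [Fintype κ]
  [DecidableEq ι']

/-- Weighted shifts. -/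
noncomputable def wq (p : ℝ≥0∞) [Fact (1 ≤ p)] (c : κ → ℂ) (α : κ → ι) (β : κ → ι') :
    Lp p ι →L[ℂ] Lp p ι' :=
  ∑ j, c j • (PiLp.proj p (fun _ : ι => ℂ) (α j) : Lp p ι →L[ℂ] ℂ).smulRight (PiLp.single p (β j) 1)

omit [Fintype ι] in
lemma wq_apply (c : κ → ℂ) (α : κ → ι) (β : κ → ι') (v : Lp p ι) :
    wq p c α β v = ∑ j, (c j * v (α j)) • PiLp.single p (β j) (1 : ℂ) := by
  simp [wq, mul_smul]

omit [Fintype ι] in
lemma wq_at (c : κ → ℂ) (α : κ → ι) {β : κ → ι'} (hβ : Function.Injective β) (v : Lp p ι) (j : κ) :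
    wq p c α β v (β j) = c j * v (α j) := by
  classical
  simp [wq_apply, Pi.single_apply, hβ.eq_iff]

omit [Fintype ι] in
lemma wq_off (c : κ → ℂ) (α : κ → ι) {β : κ → ι'} (v : Lp p ι) {i : ι'} (h : ∀ j, β j ≠ i) :
    wq p c α β v i = 0 := by
  simp [wq_apply, fun j => (h j).symm]

lemma norm_wq_le {c : κ → ℂ} {α : κ → ι} {β : κ → ι'} (hα : Function.Injective α)
    (hβ : Function.Injective β) {r : ℝ} (hr : 0 ≤ r) (hc : ∀ j, ‖c j‖ ≤ r) : ‖wq p c α β‖ ≤ r := by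
  refine ContinuousLinearMap.opNorm_le_bound _ hr fun v => ?_
  rcases isEmpty_or_nonempty κ with h | h
  · simp only [wq_apply, univ_eq_empty, sum_empty, norm_zero]
    positivity
  let u : Lp p κ := WithLp.toLp p fun j => c j * v (α j)
  have h1 : ‖u‖ ≤ ‖(r : ℂ) • v‖ := lp_le α hα.injOn fun j _ => by
    simp only [u, norm_mul, PiLp.smul_apply, smul_eq_mul, Complex.norm_real, Real.norm_eq_abs,
      abs_of_nonneg hr]
    exact mul_le_mul_of_nonneg_right (hc j) (norm_nonneg _)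
  rw [norm_smul, Complex.norm_real, Real.norm_eq_abs, abs_of_nonneg hr] at h1
  have h2 : ∀ i, wq p c α β v i ≠ 0 → ∃ j, β j = i := fun i hi => by
    by_contra h3
    exact hi (wq_off c α v fun j e => h3 ⟨j, e⟩)
  refine (lp_le (Function.invFun β) (fun i hi i' hi' e => ?_) fun i hi => ?_).trans h1
  · rw [← Function.invFun_eq (h2 i hi), e, Function.invFun_eq (h2 i' hi')]
  · obtain ⟨j, rfl⟩ := h2 i hi
    rw [Function.leftInverse_invFun hβ j, wq_at c α hβ]

end Lp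

lemma pigeon (X : Type) [NormedAddCommGroup X] [ProperSpace X] (R : ℝ) {δ : ℝ} (hδ : 0 < δ)
    (κ : Type) [Fintype κ] : ∃ n : ℕ, ∀ g : Fin n → X, (∀ i, ‖g i‖ ≤ R) →
      ∃ σ : κ → Fin n, Function.Injective σ ∧ ∀ j j', ‖g (σ j) - g (σ j')‖ ≤ δ := by
  classical
  obtain ⟨t, ht, hc⟩ := Metric.totallyBounded_iff.1
    (isCompact_closedBall (0 : X) |R|).totallyBounded (δ / 2) (half_pos hδ)
  have := ht.fintype
  have hne : Nonempty t := by
    obtain ⟨y, hy, -⟩ := Set.mem_iUnion₂.1 (hc (Metric.mem_closedBall_self (abs_nonneg R)))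
    exact ⟨⟨y, hy⟩⟩
  refine ⟨Fintype.card t * Fintype.card κ, fun g hg => ?_⟩
  have h1 : ∀ i, ∃ y : t, g i ∈ Metric.ball (y : X) (δ / 2) := fun i => by
    obtain ⟨y, hy, h⟩ := Set.mem_iUnion₂.1 (hc (mem_closedBall_zero_iff.2
      ((hg i).trans (le_abs_self R))))
    exact ⟨⟨y, hy⟩, h⟩
  choose c hc using h1
  obtain ⟨y, hy⟩ := Fintype.exists_le_card_fiber_of_mul_le_card c (n := Fintype.card κ) (by simp)
  obtain ⟨σ⟩ := Function.Embedding.nonempty_of_card_le (α := κ) (β := filter (fun i => c i = y) univ)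
    (by rwa [Fintype.card_coe])
  refine ⟨fun j => σ j, Subtype.val_injective.comp σ.injective, fun j j' => ?_⟩
  have h2 := hc (σ j)
  have h3 := hc (σ j')
  rw [(mem_filter.1 (σ j).2).2] at h2
  rw [(mem_filter.1 (σ j').2).2] at h3
  rw [← dist_eq_norm]
  linarith [dist_triangle_right (g (σ j)) (g (σ j')) y, Metric.mem_ball.1 h2, Metric.mem_ball.1 h3]

variable {E : Type} [NormedAddCommGroup E] [NormedSpace ℂ E] {x : ℕ → E} {f : ℕ → E →L[ℂ] ℂ}

/-- Multipliers. -/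
noncomputable def mu (x : ℕ → E) (f : ℕ → E →L[ℂ] ℂ) (s : Finset ℕ) (c : ℕ → ℂ) : E →L[ℂ] E :=
  ∑ i ∈ s, c i • (f i).smulRight (x i)

lemma mu_apply (s : Finset ℕ) (c : ℕ → ℂ) (u : E) :
    mu x f s c u = ∑ i ∈ s, c i • f i u • x i := by
  simp [mu]

lemma norm_mu_le (s : Finset ℕ) (c : ℕ → ℂ) :
    ‖mu x f s c‖ ≤ ∑ i ∈ s, ‖c i‖ * (‖f i‖ * ‖x i‖) :=
  (norm_sum_le _ _).trans (sum_le_sum fun i _ => by
    rw [norm_smul, ContinuousLinearMap.norm_smulRight_apply])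

/-- Biorthogonal systems. -/
def Bi (x : ℕ → E) (f : ℕ → E →L[ℂ] ℂ) : Prop := ∀ i j : ℕ, f i (x j) = if i = j then (1 : ℂ) else 0

lemma Bi.f_mu (h : Bi x f) (s : Finset ℕ) (c : ℕ → ℂ) (j : ℕ) (u : E) :
    f j (mu x f s c u) = if j ∈ s then c j * f j u else 0 := by
  simp [mu_apply, h j]

lemma Bi.mu_x (h : Bi x f) (s : Finset ℕ) (c : ℕ → ℂ) (j : ℕ) :
    mu x f s c (x j) = if j ∈ s then c j • x j else 0 := by
  simp [mu_apply, h _ j]

lemma Bi.mu_mu (h : Bi x f) (s t : Finset ℕ) (c d : ℕ → ℂ) (u : E) :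
    mu x f s c (mu x f t d u) = mu x f (s ∩ t) (c * d) u := by
  rw [mu_apply s, mu_apply (s ∩ t), ← filter_mem_eq_inter, sum_filter]
  refine sum_congr rfl fun i _ => ?_
  rw [h.f_mu]
  split_ifs <;> simp [mul_smul]

/-- Uniformly complemented finite sequence spaces. -/
def Cpl (E : Type) [NormedAddCommGroup E] [NormedSpace ℂ E] (C : ℝ) : Prop :=
  ∀ n : ℕ, ∃ (p : ℝ≥0∞) (_ : Fact (1 ≤ p)) (A : Lp p (Fin n) →L[ℂ] E) (B : E →L[ℂ] Lp p (Fin n)),
    B.comp A = .id ℂ _ ∧ ‖A‖ ≤ C ∧ ‖B‖ ≤ C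

lemma far_approx {C : ℝ} (hC : Cpl E C) (κ : Type) [Fintype κ] [DecidableEq κ] (a : ℕ) :
    ∃ (p : ℝ≥0∞) (_ : Fact (1 ≤ p)) (A : Lp p κ →L[ℂ] E) (B : E →L[ℂ] Lp p κ),
      B.comp A = .id ℂ _ ∧ ‖A‖ ≤ 2 * C ∧ ‖B‖ ≤ C ∧ ‖(mu x f (range a) 1).comp A‖ ≤ 1 / 2 ∧
      ‖B.comp (mu x f (range a) 1)‖ ≤ 1 / 2 := by
  obtain ⟨S, hS⟩ : ∃ S, S = ∑ t ∈ range a, (‖x t‖ + ‖f t‖ * 1) := ⟨_, rfl⟩
  have pS : 0 ≤ S := by rw [hS]; positivity
  have hx : ∀ t ∈ range a, ‖x t‖ + ‖f t‖ * 1 ≤ S := fun t ht =>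
    hS ▸ single_le_sum (f := fun t => ‖x t‖ + ‖f t‖ * 1) (fun _ _ => by positivity) ht
  obtain ⟨δ, hδ⟩ : ∃ δ, δ = 1 / (2 * (Fintype.card κ * S + 1)) := ⟨_, rfl⟩
  have pδ : 0 < δ := by rw [hδ]; positivity
  have hδ' : Fintype.card κ * (δ * S) ≤ 1 / 2 := by
    rw [hδ]
    field_simp
    linarith
  obtain ⟨n, hn⟩ := pigeon ((Fin a → ℂ) × (Fin a → ℂ)) (C * S) pδ (κ ⊕ κ)
  obtain ⟨p, hp, A, B, h1, h2, h3⟩ := hC n
  have pC : 0 ≤ C := (norm_nonneg _).trans h2
  obtain ⟨σ, s1, s2⟩ := hn (fun i => (fun t => f t (A (PiLp.single p i 1)), fun t => B (x t) i))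
    fun i => by
      refine max_le ((pi_norm_le_iff_of_nonneg (by positivity)).2 fun t => ?_)
        ((pi_norm_le_iff_of_nonneg (by positivity)).2 fun t => ?_)
      · have := A.le_of_opNorm_le h2 (PiLp.single p i 1)
        rw [PiLp.norm_single, norm_one, mul_one] at this
        refine ((f t).le_opNorm_of_le this).trans ?_
        rw [mul_comm]
        exact mul_le_mul_of_nonneg_left (by linarith [hx t (mem_range.2 t.2), norm_nonneg (x t)]) pC
      · refine (PiLp.norm_apply_le _ _).trans ((B.le_of_opNorm_le h3 _).trans ?_)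
        exact mul_le_mul_of_nonneg_left (by linarith [hx t (mem_range.2 t.2), norm_nonneg (f t)]) pC
  have i1 : Function.Injective fun j => σ (.inl j) := s1.comp Sum.inl_injective
  have i2 : Function.Injective fun j => σ (.inr j) := s1.comp Sum.inr_injective
  have i3 : ∀ j j', σ (.inl j) ≠ σ (.inr j') := fun j j' e => Sum.inl_ne_inr (s1 e)
  let D : Lp p κ →L[ℂ] Lp p (Fin n) := wq p 1 id (fun j => σ (.inl j)) - wq p 1 id fun j => σ (.inr j)
  let D' : Lp p (Fin n) →L[ℂ] Lp p κ :=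
    wq p (fun _ => 1 / 2) (fun j => σ (.inl j)) id - wq p (fun _ => 1 / 2) (fun j => σ (.inr j)) id
  have hD' : ∀ v j, D' v j = 1 / 2 * (v (σ (.inl j)) - v (σ (.inr j))) := fun v j => by
    rw [mul_sub, ← wq_at (fun _ => (1 / 2 : ℂ)) (fun j => σ (.inl j)) Function.injective_id v j,
      ← wq_at (fun _ => (1 / 2 : ℂ)) (fun j => σ (.inr j)) Function.injective_id v j]
    rfl
  have n1 : ‖D‖ ≤ 2 := (norm_sub_le _ _).trans (by
    linarith [norm_wq_le (p := p) (c := 1) Function.injective_id i1 zero_le_one (by simp),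
      norm_wq_le (p := p) (c := 1) Function.injective_id i2 zero_le_one (by simp)])
  have n2 : ‖D'‖ ≤ 1 := (norm_sub_le _ _).trans (by
    linarith [norm_wq_le (p := p) (c := fun _ => 1 / 2) (r := 1 / 2) i1 Function.injective_id
      (by norm_num) (by simp), norm_wq_le (p := p) (c := fun _ => 1 / 2) (r := 1 / 2) i2
      Function.injective_id (by norm_num) (by simp)])
  refine ⟨p, hp, A.comp D, D'.comp B, ?_, ?_, ?_, ?_, ?_⟩
  · ext v j
    have := congrArg (fun T => T (D v)) h1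
    simp only [ContinuousLinearMap.comp_apply, ContinuousLinearMap.id_apply] at this ⊢
    rw [this, hD']
    simp only [D, _root_.sub_apply, PiLp.sub_apply]
    rw [wq_at _ _ i1, wq_at _ _ i2, wq_off _ _ _ fun j' => (i3 j j').symm,
      wq_off _ _ _ fun j' => i3 j' j]
    simp
    ring
  · exact (A.opNorm_comp_le D).trans ((mul_le_mul h2 n1 (norm_nonneg _) pC).trans_eq (mul_comm _ _))
  · exact (D'.opNorm_comp_le B).trans ((mul_le_mul n2 h3 (norm_nonneg _) zero_le_one).trans_eq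
      (one_mul _))
  · refine (lp_opNorm_le _).trans (le_trans ?_ hδ')
    rw [← nsmul_eq_mul, ← card_univ, ← sum_const]
    refine sum_le_sum fun j _ => ?_
    have e : D (PiLp.single p j 1) = PiLp.single p (σ (.inl j)) 1 - PiLp.single p (σ (.inr j)) 1 := by
      simp [D, wq_apply]
    rw [ContinuousLinearMap.comp_apply, ContinuousLinearMap.comp_apply, e, mu_apply, hS, mul_sum]
    refine (norm_sum_le _ _).trans (sum_le_sum fun t ht => ?_)
    have := (norm_le_pi_norm _ ⟨t, mem_range.1 ht⟩).trans ((norm_fst_le _).trans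
      (s2 (.inl j) (.inr j)))
    rw [Pi.one_apply, one_smul, norm_smul, map_sub, map_sub]
    exact mul_le_mul this (by linarith [norm_nonneg (f t)]) (norm_nonneg _) pδ.le
  · refine le_trans (ContinuousLinearMap.opNorm_le_bound _ (by positivity) fun u => ?_) hδ'
    refine (lp_norm_le_sum _).trans ?_
    rw [mul_assoc, ← nsmul_eq_mul, ← card_univ, ← sum_const]
    refine sum_le_sum fun j _ => ?_
    rw [ContinuousLinearMap.comp_apply, mu_apply, map_sum, WithLp.ofLp_sum, Finset.sum_apply, hS,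
      mul_sum, sum_mul]
    refine (norm_sum_le _ _).trans (sum_le_sum fun t ht => ?_)
    have h4 := (norm_le_pi_norm _ ⟨t, mem_range.1 ht⟩).trans ((norm_snd_le _).trans
      (s2 (.inl j) (.inr j)))
    have h5 : ‖(D'.comp B) (x t) j‖ ≤ δ := by
      rw [ContinuousLinearMap.comp_apply, hD', norm_mul]
      exact (mul_le_of_le_one_left (norm_nonneg _) (by norm_num)).trans h4
    rw [Pi.one_apply, one_smul, map_smul, PiLp.smul_apply, norm_smul, mul_comm, mul_assoc]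
    refine mul_le_mul h5 (((f t).le_opNorm u).trans ?_) (norm_nonneg _) pδ.le
    exact mul_le_mul_of_nonneg_right (by linarith [norm_nonneg (x t)]) (norm_nonneg _)

theorem far (h : Bi x f) {l : ℕ → ℕ → ℂ} {M C : ℝ}
    (hT : ∀ u, Tendsto (fun n => mu x f (range (n + 1)) (l n) u) atTop (𝓝 u))
    (hM : ∀ n, ‖mu x f (range (n + 1)) (l n)‖ ≤ M) (hC : Cpl E C) :
    ∃ K, 0 ≤ K ∧ ∀ (κ : Type) [Fintype κ] [DecidableEq κ] (a : ℕ), ∃ b, a ≤ b ∧
      ∃ (p : ℝ≥0∞) (_ : Fact (1 ≤ p)) (A : Lp p κ →L[ℂ] E) (B : E →L[ℂ] Lp p κ),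
        B.comp A = .id ℂ _ ∧ ‖A‖ ≤ K ∧ ‖B‖ ≤ K ∧ (∀ v, mu x f (Ico a b) 1 (A v) = A v) ∧
        ∀ u, B (mu x f (Ico a b) 1 u) = B u := by
  have pM : 0 ≤ M := (norm_nonneg _).trans (hM 0)
  have pC : 0 ≤ C := by
    obtain ⟨p, hp, A, B, -, h2, -⟩ := hC 0
    exact (norm_nonneg _).trans h2
  refine ⟨M * (2 * C + 1) * 2, by positivity, fun κ _ _ a => ?_⟩
  obtain ⟨p, hp, A, B, h1, h2, h3, h4, h5⟩ := far_approx (x := x) (f := f) hC κ a
  let T : ℕ → E →L[ℂ] E := fun n => mu x f (range (n + 1)) (l n)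
  let Q : E →L[ℂ] E := mu x f (range a) 1
  let A' : Lp p κ →L[ℂ] E := A - Q.comp A
  let B' : E →L[ℂ] Lp p κ := B - B.comp Q
  have hQ : ∀ u, Q (Q u) = Q u := fun u => by simp only [Q, h.mu_mu, inter_self, mul_one]
  have hTT : ∀ u, Tendsto (fun n => T n (T n u)) atTop (𝓝 u) := fun u => by
    have a1 : Tendsto (fun n => T n (T n u - u)) atTop (𝓝 0) := by
      refine squeeze_zero_norm (fun n => (T n).le_of_opNorm_le (hM n) _) ?_
      simpa using (tendsto_iff_norm_sub_tendsto_zero.1 (hT u)).const_mul M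
    simpa [T] using a1.add (hT u)
  have a2 : Tendsto (fun n => ∑ j, ‖(B'.comp ((T n).comp ((T n).comp A')) - B'.comp A')
      (PiLp.single p j 1)‖) atTop (𝓝 (∑ j : κ, 0)) :=
    tendsto_finsetSum _ fun j _ => tendsto_iff_norm_sub_tendsto_zero.1
      ((B'.continuous.tendsto _).comp (hTT _))
  rw [sum_const_zero] at a2
  obtain ⟨n, n1, n2⟩ := ((a2.eventually (ge_mem_nhds (show (0 : ℝ) < 1 / 4 by norm_num))).and
    (eventually_ge_atTop a)).exists
  have a3 : ‖1 - (B'.comp (T n)).comp ((T n).comp A')‖ ≤ 1 / 2 := by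
    have e : 1 - (B'.comp (T n)).comp ((T n).comp A') =
        (B.comp Q).comp (Q.comp A) - (B'.comp ((T n).comp ((T n).comp A')) - B'.comp A') := by
      ext1 v
      have := congrArg (fun S => S v) h1
      simp only [ContinuousLinearMap.comp_apply, ContinuousLinearMap.id_apply] at this
      simp [A', B', hQ, this]
      abel
    rw [e]
    have := ((B.comp Q).opNorm_comp_le (Q.comp A)).trans
      (mul_le_mul h5 h4 (norm_nonneg _) (by norm_num))
    linarith [norm_sub_le ((B.comp Q).comp (Q.comp A))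
      (B'.comp ((T n).comp ((T n).comp A')) - B'.comp A'), (lp_opNorm_le _).trans n1]
  obtain ⟨J, j1, j2⟩ : ∃ J : Lp p κ →L[ℂ] Lp p κ,
      ((B'.comp (T n)).comp ((T n).comp A')).comp J = .id ℂ _ ∧ ‖J‖ ≤ 2 := by
    let U := Units.oneSub _ (a3.trans_lt (by norm_num))
    have e : (B'.comp (T n)).comp ((T n).comp A') * U⁻¹.1 = 1 := by
      rw [← U.mul_inv]
      simp [U]
    refine ⟨U⁻¹.1, e, ContinuousLinearMap.opNorm_le_bound _ (by norm_num) fun v => ?_⟩
    have b1 := (1 - (B'.comp (T n)).comp ((T n).comp A')).le_of_opNorm_le a3 (U⁻¹.1 v)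
    rw [_root_.sub_apply, ← mul_apply_eq_comp (B'.comp (T n) |>.comp _), e]
      at b1
    have b2 := norm_sub_norm_le (U⁻¹.1 v) v
    simp only [one_apply_eq_self] at b1
    linarith
  have c1 : ‖A'‖ ≤ 2 * C + 1 := (norm_sub_le _ _).trans (by linarith)
  have c2 : ‖B'‖ ≤ 2 * C + 1 := (norm_sub_le _ _).trans (by linarith)
  have c3 : ∀ u, mu x f (Ico a (n + 1)) 1 u = mu x f (range (n + 1)) 1 u - Q u := fun u => by
    simp only [Q, mu_apply, range_eq_Ico]
    rw [← sum_Ico_consecutive _ (Nat.zero_le a) (n2.trans n.le_succ), add_sub_cancel_left]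
  have c4 : ∀ u, Q (T n u) = T n (Q u) := fun u => by
    simp only [Q, T, h.mu_mu, inter_comm, mul_comm]
  refine ⟨n + 1, n2.trans n.le_succ, p, hp, ((T n).comp A').comp J, B'.comp (T n), j1, ?_, ?_,
    fun v => ?_, fun u => ?_⟩
  · exact (ContinuousLinearMap.opNorm_comp_le _ _).trans (mul_le_mul
      ((ContinuousLinearMap.opNorm_comp_le _ _).trans (mul_le_mul (hM n) c1 (norm_nonneg _) pM))
      j2 (norm_nonneg _) (by positivity))
  · refine (ContinuousLinearMap.opNorm_comp_le _ _).trans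
      ((mul_le_mul c2 (hM n) (norm_nonneg _) (by positivity)).trans ?_)
    nlinarith [mul_nonneg pM pC]
  · simp only [ContinuousLinearMap.comp_apply]
    rw [c3, c4]
    simp [T, A', hQ, h.mu_mu]
  · simp only [ContinuousLinearMap.comp_apply]
    rw [c3, map_sub, ← c4]
    simp [T, B', hQ, h.mu_mu]

end Pool.Agent.Lib.MP_843e59_an
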