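import Pool.Agent.Lib.MP_843e59_an.Far

/-! One block of the new biorthogonal system. -/

set_option autoImplicit false

namespace Pool.Agent.Lib.MP_843e59_an

open Finset Filter Topology Polynomial
open scoped ENNReal

variable {E : Type} [NormedAddCommGroup E] [NormedSpace ℂ E] {x : ℕ → E} {f : ℕ → E →L[ℂ] ℂ}

lemma block (h : Bi x f) {a b : ℕ} (R : E →L[ℂ] E) (h1 : ∀ u, mu x f (Ico a b) 1 (R u) = R u)
    (h2 : ∀ u, R (mu x f (Ico a b) 1 u) = R u)
    (h3 : ∀ u, u ∈ Submodule.span ℂ (REig (R : E →ₗ[ℂ] E))) :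
    ∃ (y : ℕ → E) (g : ℕ → E →L[ℂ] ℂ) (μ : ℕ → ℝ),
      (∀ i ∈ Ico a b, ∀ j ∈ Ico a b, g i (y j) = if i = j then 1 else 0) ∧
      (∀ i, mu x f (Ico a b) 1 (y i) = y i ∧ ∀ u, g i (mu x f (Ico a b) 1 u) = g i u) ∧
      mu y g (Ico a b) 1 = mu x f (Ico a b) 1 ∧ mu y g (Ico a b) (fun i => μ i) = R := by
  let X : (Fin (b - a) → ℂ) →ₗ[ℂ] E := Fintype.linearCombination ℂ fun t => x (a + t)
  let F : E →L[ℂ] Fin (b - a) → ℂ := ContinuousLinearMap.pi fun t => f (a + t)
  have hs : ∀ (φ : ℕ → E), ∑ i ∈ Ico a b, φ i = ∑ t : Fin (b - a), φ (a + t) := fun φ => by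
    rw [sum_Ico_eq_sum_range, sum_range]
  have FX : ∀ v, F (X v) = v := fun v => by
    ext t
    simp [X, F, Fintype.linearCombination_apply, h _ _, Fin.val_inj]
  have XF : ∀ u, X (F u) = mu x f (Ico a b) 1 u := fun u => by
    simp [X, F, Fintype.linearCombination_apply, mu_apply, hs]
  obtain ⟨B, μ, hB⟩ := exists_eigenbasis ((F : E →ₗ[ℂ] _) ∘ₗ (R : E →ₗ[ℂ] E) ∘ₗ X) fun v _ => by
    rw [← FX v]
    refine Submodule.span_mono ?_ (Submodule.apply_mem_span_image_of_mem_span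
      (F : E →ₗ[ℂ] Fin (b - a) → ℂ) (h3 (X v)))
    rintro _ ⟨w, ⟨t, ht⟩, rfl⟩
    refine ⟨t, ?_⟩
    change F (R (X (F w))) = _
    rw [XF, h2, show R w = (t : ℂ) • w from ht, map_smul]
    rfl
  have hB' : ∀ t, F (R (X (B t))) = (μ t : ℂ) • B t := hB
  refine ⟨fun i => if h : i - a < b - a then X (B ⟨i - a, h⟩) else 0,
    fun i => if h : i - a < b - a then
      (LinearMap.toContinuousLinearMap (B.coord ⟨i - a, h⟩)).comp F else 0,
    fun i => if h : i - a < b - a then μ ⟨i - a, h⟩ else 0, fun i hi j hj => ?_,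
    fun i => ⟨?_, fun u => ?_⟩, ?_, ?_⟩
  · rw [mem_Ico] at hi hj
    beta_reduce
    rw [dif_pos (by omega), dif_pos (by omega)]
    simp only [ContinuousLinearMap.comp_apply, FX, LinearMap.coe_toContinuousLinearMap',
      Module.Basis.coord_apply, Module.Basis.repr_self, Finsupp.single_apply, Fin.mk.injEq]
    exact if_congr (by omega) rfl rfl
  · beta_reduce
    split_ifs
    · rw [← XF, FX]
    · exact map_zero _
  · beta_reduce
    split_ifs
    · simp only [ContinuousLinearMap.comp_apply, ← XF, FX]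
    · rfl
  · ext u
    rw [mu_apply, hs, ← XF, ← B.sum_repr (F u), map_sum]
    refine sum_congr rfl fun t _ => ?_
    simp
  · ext u
    rw [mu_apply, hs, ← h1, ← h2, ← XF, ← XF, ← B.sum_repr (F u)]
    simp only [map_sum, map_smul, hB']
    refine sum_congr rfl fun t _ => ?_
    simp only [Nat.add_sub_cancel_left, t.2, dif_pos]
    rw [smul_comm]
    rfl

theorem step (h : Bi x f) {l : ℕ → ℕ → ℂ} {M C : ℝ}
    (hT : ∀ u, Tendsto (fun n => mu x f (range (n + 1)) (l n) u) atTop (𝓝 u))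
    (hM : ∀ n, ‖mu x f (range (n + 1)) (l n)‖ ≤ M) (hC : Cpl E C) :
    ∃ K : ℝ, ∀ a, ∃ b, a < b ∧ ∃ (y : ℕ → E) (g : ℕ → E →L[ℂ] ℂ) (μ : ℕ → ℝ),
      (∀ i ∈ Ico a b, ∀ j ∈ Ico a b, g i (y j) = if i = j then 1 else 0) ∧
      (∀ i, mu x f (Ico a b) 1 (y i) = y i ∧ ∀ u, g i (mu x f (Ico a b) 1 u) = g i u) ∧
      mu y g (Ico a b) 1 = mu x f (Ico a b) 1 ∧
      ‖mu x f (range a) 1 + mu y g (Ico a b) (fun i => μ i)‖ ≤ K := by
  have pM : 0 ≤ M := (norm_nonneg _).trans (hM 0)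
  have hx0 : ∀ i, 0 < ‖x i‖ := fun i => norm_pos_iff.2 fun e => by simpa [e] using h i i
  have hl : ∀ n i, i < n + 1 → ‖l n i‖ ≤ M := fun n i hi => by
    have := (mu x f (range (n + 1)) (l n)).le_of_opNorm_le (hM n) (x i)
    rw [h.mu_x, if_pos (mem_range.2 hi), norm_smul] at this
    exact le_of_mul_le_mul_right this (hx0 i)
  have hl1 : ∀ i, Tendsto (fun n => l n i) atTop (𝓝 1) := fun i => by
    have h2 := ((f i).continuous.tendsto _).comp (hT (x i))
    rw [h i i, if_pos rfl] at h2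
    refine h2.congr' ?_
    filter_upwards [eventually_ge_atTop i] with n hn
    simp [h.f_mu, h i i, Nat.lt_succ_of_le hn]
  obtain ⟨K, pK, hK⟩ := far h hT hM hC
  refine ⟨M + 1 + K + K + K * ((M + 2 + 2 * (M + 1)) * K), fun a => ?_⟩
  have a1 : Tendsto (fun n => ∑ i ∈ range a, ‖1 - l n i‖ * (‖f i‖ * ‖x i‖)) atTop
      (𝓝 (∑ i ∈ range a, ‖1 - (1 : ℂ)‖ * (‖f i‖ * ‖x i‖))) :=
    tendsto_finsetSum _ fun i _ => ((tendsto_const_nhds.sub (hl1 i)).norm).mul_const _
  simp only [sub_self, norm_zero, zero_mul, sum_const_zero] at a1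
  obtain ⟨n, n1, n2⟩ := ((a1.eventually (ge_mem_nhds one_pos)).and (eventually_ge_atTop a)).exists
  obtain ⟨S, hS⟩ : ∃ S, S = ∑ i : Ico a (n + 1), (‖f i‖ + ‖x i‖) := ⟨_, rfl⟩
  have pS : 0 ≤ S := by rw [hS]; positivity
  obtain ⟨ε, hε⟩ : ∃ ε, ε = 1 / (S + 1) := ⟨_, rfl⟩
  have pε : 0 < ε := by rw [hε]; positivity
  have hε' : ε * S ≤ 1 := by
    rw [hε]
    field_simp
    linarith
  obtain ⟨k, hk⟩ := pow_unbounded_of_one_lt ((M + 1) ^ 2 / ε ^ 2) (one_lt_two (α := ℝ))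
  obtain ⟨b, hb, p, hp, A, B, b1, b2, b3, b4, b5⟩ := hK (Ico a (n + 1) × Fin (k + 1)) (n + 1)
  choose δ d0 d1 d2 using fun i : Ico a (n + 1) => exists_diag (k + 1) (l n i)
  obtain ⟨r, hr⟩ : ∃ r : ℝ, r = 2 * (M + 1) := ⟨_, rfl⟩
  have pr : 0 < r := by rw [hr]; positivity
  obtain ⟨v, hv⟩ : ∃ v : Ico a (n + 1) → ℂ,
      v = fun i : Ico a (n + 1) => -(gp (k + 2)).eval (l n i) / (ε * r ^ k) := ⟨_, rfl⟩
  have hli : ∀ i : Ico a (n + 1), ‖l n i‖ ≤ M := fun i => hl n i (mem_Ico.1 i.2).2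
  have hv' : ∀ i, ‖v i‖ ≤ ε := fun i => by
    have c1 := (norm_gp_le (k + 2) (l n i)).trans
      (pow_le_pow_left₀ (by positivity) (add_le_add_left (hli i) 1) _)
    rw [div_lt_iff₀ (by positivity)] at hk
    simp only [hv, norm_div, norm_neg, norm_mul, norm_pow, Complex.norm_real, Real.norm_eq_abs,
      abs_of_pos pε, abs_of_pos pr]
    rw [div_le_iff₀ (by positivity), hr, mul_pow]
    refine c1.trans ?_
    rw [pow_add]
    nlinarith [pow_pos (show 0 < M + 1 by positivity) k]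
  let e : Ico a (n + 1) × Fin (k + 1) → E := fun q => A (PiLp.single p q 1)
  let φ : Ico a (n + 1) → E →L[ℂ] ℂ := fun i =>
    (PiLp.proj p _ (i, Fin.last k) : Lp p (Ico a (n + 1) × Fin (k + 1)) →L[ℂ] ℂ).comp B
  let W : Lp p (Ico a (n + 1) × Fin (k + 1)) →L[ℂ] Lp p (Ico a (n + 1) × Fin (k + 1)) :=
    wq p (fun q => δ q.1 (q.2 + 1)) id id + wq p (fun _ : Ico a (n + 1) × Fin k => (r : ℂ))
      (fun q => (q.1, q.2.castSucc)) fun q => (q.1, q.2.succ)
  let R : E →L[ℂ] E := mu x f (Ico a (n + 1)) (l n) +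
    ∑ i : Ico a (n + 1), (ε : ℂ) • (f i).smulRight (e (i, 0)) +
    ∑ i : Ico a (n + 1), v i • (φ i).smulRight (x i) + A.comp (W.comp B)
  have hR : ∀ u, R u = mu x f (Ico a (n + 1)) (l n) u +
      ∑ i : Ico a (n + 1), (ε : ℂ) • f i u • e (i, 0) +
      ∑ i : Ico a (n + 1), v i • B u (i, Fin.last k) • x i + A (W (B u)) := fun u => by
    simp [R, φ]
  have Bx : ∀ i < n + 1, B (x i) = 0 := fun i hi => by
    rw [← b5, h.mu_x, if_neg (by simp; omega), map_zero]
  have fA : ∀ i < n + 1, ∀ w, f i (A w) = 0 := fun i hi w => by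
    rw [← b4, h.f_mu, if_neg (by simp; omega)]
  have BA : ∀ w, B (A w) = w := fun w => congrArg (fun T => T w) b1
  have hi : ∀ i : Ico a (n + 1), (i : ℕ) < n + 1 := fun i => (mem_Ico.1 i.2).2
  have Rx : ∀ i : Ico a (n + 1), R (x i) = l n i • x i + (ε : ℂ) • e (i, 0) := fun i => by
    simp [hR, h.mu_x, Bx i (hi i), h _ i]
  have Re : ∀ i j, R (e (i, j)) = δ i (j + 1) • e (i, j) +
      if h : (j : ℕ) + 1 < k + 1 then (r : ℂ) • e (i, ⟨j + 1, h⟩) else v i • x i := fun i j => by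
    have c1 : mu x f (Ico a (n + 1)) (l n) (e (i, j)) = 0 := by
      rw [mu_apply]
      exact sum_eq_zero fun t ht => by simp [e, fA t (mem_Ico.1 ht).2]
    rw [hR, c1]
    simp only [e, BA, fA _ (hi _), W, add_apply, wq_apply, map_add, map_sum, map_smul]
    refine Fin.lastCases ?_ (fun j => ?_) j
    · simp [Prod.ext_iff, (Fin.castSucc_ne_last _), add_comm, ite_and, Fintype.sum_prod_type]
    · simp [Prod.ext_iff, (Fin.castSucc_ne_last _).symm, ite_and, Fintype.sum_prod_type]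
      rfl
  have hker : ∀ i : Ico a (n + 1), aeval (R : E →ₗ[ℂ] E) (gp (k + 2)) (x i) = 0 ∧
      ∀ j, aeval (R : E →ₗ[ℂ] E) (gp (k + 2)) (e (i, j)) = 0 := fun i => by
    have c1 := cycle_ker (R : E →ₗ[ℂ] E)
      (fun j => Nat.casesOn j (x i) fun j => if h : j < k + 1 then e (i, ⟨j, h⟩) else x i) (δ i)
      (fun j => Nat.casesOn j ε fun j => if j + 1 < k + 1 then r else v i) (k + 1) (gp (k + 2))
      ?_ (by simp) ?_ ?_
    · exact ⟨c1 0 (by omega), fun j => by simpa [Nat.lt_succ_iff.1 j.2] using c1 (j + 1) j.2⟩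
    · rintro (_ | j) hj
      · simpa [d0] using Rx i
      · have hj' : j < k + 1 := by omega
        simp only [ContinuousLinearMap.coe_coe, dif_pos hj', Re]
        split_ifs <;> rfl
    · rintro (_ | j) hj
      · simpa using pε.ne'
      · simpa [hj] using pr.ne'
    · refine (d2 i).trans ?_
      congr 2
      rw [prod_range_succ' _ (k + 1), prod_range_succ, prod_congr rfl
        (g := fun _ => (r : ℂ)) fun j hj => by simp [mem_range.1 hj], prod_const, card_range]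
      have : (ε : ℂ) ≠ 0 := by simpa using pε.ne'
      have : (r : ℂ) ≠ 0 := by simpa using pr.ne'
      simp only [hv, lt_irrefl, if_false]
      change -eval _ (gp (k + 2)) = _ * _ * (ε : ℂ)
      field_simp
  have hab : a ≤ b := n2.trans (n.le_succ.trans hb)
  have c1 : Ico a b ∩ Ico a (n + 1) = Ico a (n + 1) := inter_eq_right.2 (Ico_subset_Ico_right hb)
  have c2 : Ico a b ∩ Ico (n + 1) b = Ico (n + 1) b :=
    inter_eq_right.2 (Ico_subset_Ico_left (n2.trans n.le_succ))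
  have c3 : ∀ w, mu x f (Ico a b) 1 (A w) = A w := fun w => by
    rw [← b4, h.mu_mu, c2, mul_one]
  have c4 : ∀ u, B (mu x f (Ico a b) 1 u) = B u := fun u => by
    rw [← b5, h.mu_mu, inter_comm, c2, mul_one, b5]
  have c5 : ∀ i : Ico a (n + 1), (i : ℕ) ∈ Ico a b := fun i => Ico_subset_Ico_right hb i.2
  obtain ⟨y, g, μ, y1, y2, y3, y4⟩ := block h (a := a) (b := b) R
    (fun u => by simp [hR, e, c3, h.mu_mu, c1, h.mu_x, c5, -mem_Ico])
    (fun u => by simp [hR, c4, h.mu_mu, inter_comm (Ico a (n + 1)), c1, h.f_mu, c5, -mem_Ico])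
    fun u => eig_span _ (s := range (k + 2 + 1)) nonempty_range_add_one
      (μ := fun l => l / (k + 2 : ℕ)) (fun s _ t _ e => by
        exact_mod_cast (div_left_inj' (by positivity)).1 e) (by
      rw [nodal_gp, map_mul, aeval_X, Module.End.mul_apply, ContinuousLinearMap.coe_coe, hR,
        lp_eq_sum (W (B u)), mu_apply, ← sum_coe_sort]
      simp [(hker _).1, fun q : Ico a (n + 1) × Fin (k + 1) => (hker q.1).2 q.2, e,
        (hker _).2 0, -univ_eq_attach])
  refine ⟨b, n2.trans_lt (n.lt_succ_self.trans_le hb), y, g, μ, y1, y2, y3, ?_⟩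
  rw [y4]
  simp only [R, ← add_assoc]
  refine norm_add_le_of_le (norm_add_le_of_le (norm_add_le_of_le ?_ ?_) ?_) ?_
  · have : mu x f (range a) 1 + mu x f (Ico a (n + 1)) (l n) =
        mu x f (range (n + 1)) (l n) + mu x f (range a) (1 - l n) := by
      simp only [mu, range_eq_Ico]
      rw [← sum_Ico_consecutive _ (Nat.zero_le a) (n2.trans n.le_succ)]
      simp only [Pi.sub_apply, sub_smul, sum_sub_distrib]
      abel
    rw [this]
    exact norm_add_le_of_le (hM n) ((norm_mu_le _ _).trans n1)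
  · refine (norm_sum_le _ _).trans (le_trans ?_ (mul_le_of_le_one_left pK hε'))
    rw [hS, mul_sum, sum_mul]
    refine sum_le_sum fun i _ => ?_
    rw [norm_smul, ContinuousLinearMap.norm_smulRight_apply, Complex.norm_real, Real.norm_eq_abs,
      abs_of_pos pε, mul_assoc]
    refine mul_le_mul_of_nonneg_left (mul_le_mul (le_add_of_nonneg_right (norm_nonneg _)) ?_
      (norm_nonneg _) (by positivity)) pε.le
    simpa using A.le_of_opNorm_le b2 (PiLp.single p (i, 0) 1)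
  · refine (norm_sum_le _ _).trans (le_trans ?_ (mul_le_of_le_one_left pK hε'))
    rw [hS, mul_sum, sum_mul]
    refine sum_le_sum fun i _ => ?_
    rw [norm_smul, ContinuousLinearMap.norm_smulRight_apply, mul_assoc, mul_comm ‖φ i‖]
    refine mul_le_mul (hv' i) (mul_le_mul (le_add_of_nonneg_left (norm_nonneg _)) ?_
      (norm_nonneg _) (by positivity)) (by positivity) pε.le
    exact ContinuousLinearMap.opNorm_le_bound _ pK fun u =>
      (PiLp.norm_apply_le _ _).trans (B.le_of_opNorm_le b3 u)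
  · refine (A.opNorm_comp_le _).trans (mul_le_mul b2 ((W.opNorm_comp_le B).trans
      (mul_le_mul ?_ b3 (norm_nonneg _) (by positivity))) (norm_nonneg _) pK)
    refine norm_add_le_of_le (norm_wq_le Function.injective_id Function.injective_id
      (by positivity) fun q => (d1 _ _ (by omega)).trans (by linarith [hli q.1]))
      (norm_wq_le (fun q q' e => ?_) (fun q q' e => ?_) (by positivity) fun _ => ?_)
    · exact Prod.ext (Prod.ext_iff.1 e).1 (Fin.castSucc_injective _ (Prod.ext_iff.1 e).2)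
    · exact Prod.ext (Prod.ext_iff.1 e).1 (Fin.succ_injective _ (Prod.ext_iff.1 e).2)
    · rw [Complex.norm_real, Real.norm_eq_abs, abs_of_pos pr, hr]

end Pool.Agent.Lib.MP_843e59_an
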